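import Pool.Agent.U280.OL.Stm

/-! Package Q5 of project OL. -/

set_option autoImplicit false

open MeasureTheory FourierTransform Set Filter Topology
open scoped ENNReal

namespace Pool.Agent.U373.OL

open Pool.Agent.U280.OD Pool.Agent.U280.OE Pool.Agent.U280.OL

lemma gen {X Y : Type*} [MeasurableSpace X] [MeasurableSpace Y] (μ : Measure X) (ν : Measure Y)
    [SFinite μ] [SFinite ν] (κ : Measure ℝ) [SFinite κ] {N : ℕ} (h : Fin N → X → Y → ℝ → ℝ≥0∞)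
    (hm : ∀ n, Measurable (fun p : (X × Y) × ℝ => h n p.1.1 p.1.2 p.2)) :
    Measurable (fun x => ∫⁻ τ, ∑ n, ∫⁻ y, h n x y τ ∂ν ∂κ) ∧
    ∫⁻ x, ∫⁻ τ, ∑ n, ∫⁻ y, h n x y τ ∂ν ∂κ ∂μ =
      ∑ n, ∫⁻ y, ∫⁻ x, ∫⁻ τ, h n x y τ ∂κ ∂μ ∂ν := by
  have hm1 : ∀ n, Measurable (fun r : (X × ℝ) × Y => h n r.1.1 r.2 r.1.2) := by
    intro n
    exact (hm n).comp (g := fun p : (X × Y) × ℝ => h n p.1.1 p.1.2 p.2)
      (f := fun r : (X × ℝ) × Y => ((r.1.1, r.2), r.1.2)) (by fun_prop)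
  have hm2 : ∀ n, Measurable (fun q : X × ℝ => ∫⁻ y, h n q.1 y q.2 ∂ν) :=
    fun n => (hm1 n).lintegral_prod_right'
  have hm3 : Measurable (fun q : X × ℝ => ∑ n, ∫⁻ y, h n q.1 y q.2 ∂ν) :=
    Finset.measurable_sum _ (fun n _ => hm2 n)
  refine ⟨hm3.lintegral_prod_right' (ν := κ), ?_⟩
  calc ∫⁻ x, ∫⁻ τ, ∑ n, ∫⁻ y, h n x y τ ∂ν ∂κ ∂μ
      = ∫⁻ x, ∑ n, ∫⁻ τ, ∫⁻ y, h n x y τ ∂ν ∂κ ∂μ := by
        refine lintegral_congr (fun x => ?_)
        refine lintegral_finsetSum _ (fun n _ => ?_)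
        exact (hm2 n).comp measurable_prodMk_left
    _ = ∑ n, ∫⁻ x, ∫⁻ τ, ∫⁻ y, h n x y τ ∂ν ∂κ ∂μ := by
        refine lintegral_finsetSum _ (fun n _ => ?_)
        exact (hm2 n).lintegral_prod_right' (ν := κ)
    _ = ∑ n, ∫⁻ y, ∫⁻ x, ∫⁻ τ, h n x y τ ∂κ ∂μ ∂ν := by
        refine Finset.sum_congr rfl (fun n _ => ?_)
        calc ∫⁻ x, ∫⁻ τ, ∫⁻ y, h n x y τ ∂ν ∂κ ∂μ
            = ∫⁻ x, ∫⁻ y, ∫⁻ τ, h n x y τ ∂κ ∂ν ∂μ := by
              refine lintegral_congr (fun x => ?_)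
              refine lintegral_lintegral_swap (Measurable.aemeasurable ?_)
              exact (hm n).comp (g := fun p : (X × Y) × ℝ => h n p.1.1 p.1.2 p.2)
                (f := fun r : ℝ × Y => ((x, r.2), r.1)) (by fun_prop)
          _ = ∫⁻ y, ∫⁻ x, ∫⁻ τ, h n x y τ ∂κ ∂μ ∂ν := by
              refine lintegral_lintegral_swap (Measurable.aemeasurable ?_)
              exact (hm n).lintegral_prod_right' (ν := κ)

lemma sl_cpt {k m : ℕ} {F : P k m → ℂ} (hF : HasCompactSupport F) (y : Fin m → ℝ) :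
    HasCompactSupport (sl F y) := by
  have he : IsClosedEmbedding (fun x : E k => ((x, y) : P k m)) := by
    refine ⟨⟨⟨?_⟩, ?_⟩, ?_⟩
    · exact (isInducing_prodMkLeft y).eq_induced
    · intro a b h
      exact (Prod.mk.inj h).1
    · have : range (fun x : E k => ((x, y) : P k m)) = Prod.snd ⁻¹' {y} := by
        ext ⟨a, b⟩
        simp only [mem_range, Prod.mk.injEq, exists_eq_left, mem_preimage, mem_singleton_iff]
        exact eq_comm
      rw [this]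
      exact isClosed_singleton.preimage continuous_snd
  exact hF.comp_isClosedEmbedding he

theorem q5 (h2 : Q2) (hF1 : T_F1) (hF2 : S_F2) : Q5 := by
  intro k m N F hF hc ε hε
  have hcont : ∀ n, Continuous (F n) := fun n => (hF n).continuous
  obtain ⟨g, hg⟩ : ∃ g : Fin N → E k → (Fin m → ℝ) → ℝ → ℂ,
      g = fun n x y τ => cop ε τ (sl (F n) y) x := ⟨_, rfl⟩
  have hgm : ∀ n, Measurable (fun p : P k m × ℝ => g n p.1.1 p.1.2 p.2) := by
    intro n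
    subst hg
    exact (h2 k m (F n) (hcont n) (hc n) ε hε).1.measurable
  have hle : ∀ n y, ∫⁻ x, ∫⁻ τ in Ioi (0 : ℝ), ‖g n x y τ‖ₑ ^ 2 ≤
      ∫⁻ x, ENNReal.ofReal (grad2 (sl (F n) y) x) := by
    intro n y
    subst hg
    have hsl : ContDiff ℝ 1 (sl (F n) y) := by
      unfold sl
      exact (hF n).comp (contDiff_id.prodMk contDiff_const)
    exact (hF1 k (sl (F n) y) hsl.continuous (sl_cpt (hc n) y) ε hε).trans
      (hF2 k (sl (F n) y) hsl (sl_cpt (hc n) y))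
  have htx : tx ε F = fun x => ∫⁻ τ in Ioi (0 : ℝ), ∑ n, ∫⁻ y, ‖g n x y τ‖ₑ ^ 2 := by
    subst hg
    rfl
  clear hg
  rw [htx]
  have hk := gen (volume : Measure (E k)) (volume : Measure (Fin m → ℝ))
    (volume.restrict (Ioi (0 : ℝ))) (fun n x y τ => ‖g n x y τ‖ₑ ^ 2)
    (fun n => (hgm n).enorm.pow_const 2)
  refine ⟨hk.1, ?_⟩
  rw [hk.2]
  exact Finset.sum_le_sum (fun n _ => lintegral_mono (fun y => hle n y))

end Pool.Agent.U373.OL
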